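import Pool.Agent.N869.GK.D.Stm

/-!
# Project GK (helper869), GK/D-UNR: unramified classes at good primes (helper413)

At a prime `p` which does not divide the differences `eᵢ - eⱼ` the valuations of `x - e₁`, `x - e₂`,
`x - e₃` are even for every point `(x, y)` with `y ≠ 0`: either all of them are equal and negative, or at
most one is not zero; their sum is `2 v(y)`.
-/

set_option autoImplicit false

namespace Pool.Agent.N413.GK

theorem even_val {p : ℕ} [Fact p.Prime] {a b : ℚ_[p]} (ha : a ≠ 0) (hb : b ≠ 0)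
    (h : IsSquare (a * b)) : Even (a.valuation + b.valuation) := by
  obtain ⟨r, hr⟩ := h
  have hr0 : r ≠ 0 := by
    rintro rfl
    rw [mul_zero] at hr
    exact (mul_ne_zero ha hb) hr
  rw [← Padic.valuation_mul ha hb, hr, Padic.valuation_mul hr0 hr0]
  exact ⟨_, rfl⟩

theorem not_dvd {p : ℕ} [hp : Fact p.Prime] {d : ℤ} (hd : Squarefree d)
    (h : Even ((d : ℚ_[p]).valuation)) : ¬ (p : ℤ) ∣ d := by
  rintro ⟨d', rfl⟩
  have hpp := Nat.prime_iff_prime_int.mp hp.out
  have hd' : ¬ (p : ℤ) ∣ d' := by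
    rintro ⟨d'', rfl⟩
    exact hpp.not_isUnit (hd (p : ℤ) ⟨d'', by ring⟩)
  have hd0 : d' ≠ 0 := by
    rintro rfl
    exact hd' (dvd_zero _)
  rw [Padic.valuation_intCast, padicValInt.mul hpp.ne_zero hd0,
    padicValInt.eq_zero_of_not_dvd hd'] at h
  have h1 : padicValInt p (p : ℤ) = 1 := by
    rw [padicValInt.of_nat]
    exact padicValNat_self
  rw [h1] at h
  exact absurd h (by decide)

/-- two numbers which differ by a unit -/
theorem pair {p : ℕ} [Fact p.Prime] {u v : ℚ_[p]} {d : ℤ} (hu : u ≠ 0) (hv : v ≠ 0)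
    (hd : ¬ (p : ℤ) ∣ d) (h : u = v + (d : ℚ_[p])) :
    (u.valuation < 0 → v.valuation = u.valuation) ∧ (0 < u.valuation → v.valuation = 0) ∧
    (v.valuation < 0 → u.valuation = v.valuation) ∧ (0 < v.valuation → u.valuation = 0) := by
  have hd0 : (d : ℚ_[p]) ≠ 0 := by
    intro h0
    have : d = 0 := by exact_mod_cast h0
    exact hd (this ▸ dvd_zero _)
  have hvd : (d : ℚ_[p]).valuation = 0 := by
    rw [Padic.valuation_intCast, padicValInt.eq_zero_of_not_dvd hd]
    rfl
  have hvn : (-(d : ℚ_[p])).valuation = 0 := by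
    have : (-(d : ℚ_[p])) = ((-d : ℤ) : ℚ_[p]) := by push_cast; rfl
    rw [this, Padic.valuation_intCast, padicValInt.eq_zero_of_not_dvd (fun h => hd ((dvd_neg).1 h))]
    rfl
  have hvv : (-v).valuation = v.valuation := by
    have e : -v = (-1 : ℤ) * v := by push_cast; ring
    rw [e, Padic.valuation_mul (by norm_num) hv, Padic.valuation_intCast,
      padicValInt.eq_zero_of_not_dvd (fun h => by
        have h2 : (p : ℤ) ∣ 1 := by
          have := (dvd_neg).2 h
          simpa using this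
        exact (Nat.prime_iff_prime_int.mp (Fact.out : p.Prime)).not_isUnit
          (isUnit_of_dvd_one h2))]
    simp
  have h1 : min v.valuation (d : ℚ_[p]).valuation ≤ (v + (d : ℚ_[p])).valuation :=
    Padic.le_valuation_add (by rw [← h]; exact hu)
  have h2 : min u.valuation (-(d : ℚ_[p])).valuation ≤ (u + -(d : ℚ_[p])).valuation :=
    Padic.le_valuation_add (by
      have : u + -(d : ℚ_[p]) = v := by rw [h]; ring
      rw [this]
      exact hv)
  have h3 : min u.valuation (-v).valuation ≤ (u + -v).valuation :=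
    Padic.le_valuation_add (by
      have : u + -v = (d : ℚ_[p]) := by rw [h]; ring
      rw [this]
      exact hd0)
  have e2 : u + -(d : ℚ_[p]) = v := by rw [h]; ring
  have e3 : u + -v = (d : ℚ_[p]) := by rw [h]; ring
  rw [← h, hvd] at h1
  rw [e2, hvn] at h2
  rw [e3, hvd, hvv] at h3
  refine ⟨fun k => ?_, fun k => ?_, fun k => ?_, fun k => ?_⟩ <;> omega

theorem unr (e1 e2 e3 : ℤ) (p : ℕ) [Fact p.Prime]
    (hp : ¬ (p : ℤ) ∣ (e1 - e2) * (e1 - e3) * (e2 - e3)) (m n : ℤ) (hm : Squarefree m)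
    (hn : Squarefree n) (x y : ℚ_[p]) (hy : y ≠ 0)
    (hxy : y ^ 2 = (x - e1) * (x - e2) * (x - e3)) (h1 : IsSquare ((x - e1) * m))
    (h2 : IsSquare ((x - e2) * n)) : ¬ (p : ℤ) ∣ m ∧ ¬ (p : ℤ) ∣ n := by
  have hpr : (x - e1) * (x - e2) * (x - e3) ≠ 0 := by
    rw [← hxy]
    exact pow_ne_zero 2 hy
  have hu : x - e1 ≠ 0 := left_ne_zero_of_mul (left_ne_zero_of_mul hpr)
  have hv : x - e2 ≠ 0 := right_ne_zero_of_mul (left_ne_zero_of_mul hpr)
  have hw : x - e3 ≠ 0 := right_ne_zero_of_mul hpr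
  have hs : (x - e1).valuation + (x - e2).valuation + (x - e3).valuation =
      y.valuation + y.valuation := by
    rw [← Padic.valuation_mul hu hv, ← Padic.valuation_mul (mul_ne_zero hu hv) hw, ← hxy, pow_two,
      Padic.valuation_mul hy hy]
  have p12 : ¬ (p : ℤ) ∣ (e2 - e1) := fun h => hp (Dvd.dvd.mul_right (Dvd.dvd.mul_right
    (by rw [← neg_sub]; exact (dvd_neg).2 h) _) _)
  have p13 : ¬ (p : ℤ) ∣ (e3 - e1) := fun h => hp (Dvd.dvd.mul_right (Dvd.dvd.mul_left
    (by rw [← neg_sub]; exact (dvd_neg).2 h) _) _)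
  have p23 : ¬ (p : ℤ) ∣ (e3 - e2) := fun h => hp (Dvd.dvd.mul_left
    (by rw [← neg_sub]; exact (dvd_neg).2 h) _)
  obtain ⟨a1, a2, a3, a4⟩ := pair hu hv p12 (by push_cast; ring)
  obtain ⟨b1, b2, b3, b4⟩ := pair hu hw p13 (by push_cast; ring)
  obtain ⟨c1, c2, c3, c4⟩ := pair hv hw p23 (by push_cast; ring)
  have ev1 : Even (x - e1).valuation := by
    rw [Int.even_iff]
    omega
  have ev2 : Even (x - e2).valuation := by
    rw [Int.even_iff]
    omega
  have hm0 : (m : ℚ_[p]) ≠ 0 := by exact_mod_cast hm.ne_zero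
  have hn0 : (n : ℚ_[p]) ≠ 0 := by exact_mod_cast hn.ne_zero
  exact ⟨not_dvd hm ((Int.even_add.mp (even_val hu hm0 h1)).mp ev1),
    not_dvd hn ((Int.even_add.mp (even_val hv hn0 h2)).mp ev2)⟩

/-- **GK-UNR.** -/
theorem t_UNR : Pool.Agent.N869.GK.D.S_UNR := by
  intro e1 e2 e3 p _ _ hp m n hm hn ⟨x, y, hy, hxy, h1, h2⟩
  exact unr e1 e2 e3 p hp m n hm hn x y hy hxy h1 h2

end Pool.Agent.N413.GK
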